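import Mathlib

set_option autoImplicit false

namespace Pool.MP_59b15d_al.H24T

/-- The product of the commutators `x i * y i * (x i)⁻¹ * (y i)⁻¹`. -/
def relWord {P : Type*} [Group P] {g : ℕ} (x y : Fin g → P) : P :=
  (List.ofFn fun i => x i * y i * (x i)⁻¹ * (y i)⁻¹).prod

theorem map_relWord {P T : Type*} [Group P] [Group T] (f : P →* T) {g : ℕ} (x y : Fin g → P) :
    f (relWord x y) = relWord (fun i => f (x i)) (fun i => f (y i)) := by
  unfold relWord
  rw [map_list_prod, List.map_ofFn]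
  congr 2
  funext i
  simp

/-- The standard presentation of the closed surface group of genus `g`. -/
abbrev SurfGroup (g : ℕ) : Type :=
  PresentedGroup
        ({(List.ofFn (fun i : Fin g =>
            FreeGroup.of (Sum.inl i : Fin g ⊕ Fin g) *
            FreeGroup.of (Sum.inr i : Fin g ⊕ Fin g) *
            (FreeGroup.of (Sum.inl i : Fin g ⊕ Fin g))⁻¹ *
            (FreeGroup.of (Sum.inr i : Fin g ⊕ Fin g))⁻¹)).prod} :
          Set (FreeGroup (Fin g ⊕ Fin g)))

/-- `a, b` are standard generators of the surface group `G`. -/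
structure IsSurf {g : ℕ} {G : Type*} [Group G] (a b : Fin g → G) : Prop where
  iso : ∃ e : SurfGroup g ≃* G, ∀ i, e (PresentedGroup.of (Sum.inl i)) = a i ∧
    e (PresentedGroup.of (Sum.inr i)) = b i

theorem exists_isSurf {g : ℕ} {G : Type*} [Group G] (h : Nonempty (G ≃* SurfGroup g)) :
    ∃ a b : Fin g → G, IsSurf a b := by
  obtain ⟨e⟩ := h
  exact ⟨fun i => e.symm (PresentedGroup.of (Sum.inl i)),
    fun i => e.symm (PresentedGroup.of (Sum.inr i)), ⟨⟨e.symm, fun i => ⟨rfl, rfl⟩⟩⟩⟩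

theorem IsSurf.lift {g : ℕ} {G : Type*} [Group G] {a b : Fin g → G} (h : IsSurf a b)
    {T : Type*} [Group T] (s t : Fin g → T) (hst : relWord s t = 1) :
    ∃ f : G →* T, (∀ i, f (a i) = s i) ∧ (∀ i, f (b i) = t i) := by
  obtain ⟨e, he⟩ := h.iso
  let f0 : Fin g ⊕ Fin g → T := Sum.elim s t
  have hrel : ∀ r ∈ ({(List.ofFn (fun i : Fin g =>
            FreeGroup.of (Sum.inl i : Fin g ⊕ Fin g) *
            FreeGroup.of (Sum.inr i : Fin g ⊕ Fin g) *
            (FreeGroup.of (Sum.inl i : Fin g ⊕ Fin g))⁻¹ *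
            (FreeGroup.of (Sum.inr i : Fin g ⊕ Fin g))⁻¹)).prod} :
          Set (FreeGroup (Fin g ⊕ Fin g))), FreeGroup.lift f0 r = 1 := by
    intro r hr
    rw [Set.mem_singleton_iff] at hr
    rw [hr]
    have := map_relWord (FreeGroup.lift f0) (fun i : Fin g => FreeGroup.of (Sum.inl i : Fin g ⊕ Fin g))
      (fun i : Fin g => FreeGroup.of (Sum.inr i : Fin g ⊕ Fin g))
    unfold relWord at this
    rw [this]
    simp only [FreeGroup.lift_apply_of]
    exact hst
  let F : SurfGroup g →* T := PresentedGroup.toGroup hrel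
  refine ⟨F.comp e.symm.toMonoidHom, fun i => ?_, fun i => ?_⟩
  · change F (e.symm (a i)) = s i
    rw [← (he i).1, MulEquiv.symm_apply_apply]
    exact PresentedGroup.toGroup.of hrel
  · change F (e.symm (b i)) = t i
    rw [← (he i).2, MulEquiv.symm_apply_apply]
    exact PresentedGroup.toGroup.of hrel

theorem IsSurf.closure_eq {g : ℕ} {G : Type*} [Group G] {a b : Fin g → G} (h : IsSurf a b) :
    Subgroup.closure (Set.range a ∪ Set.range b) = ⊤ := by
  obtain ⟨e, he⟩ := h.iso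
  have h1 := PresentedGroup.closure_range_of ({(List.ofFn (fun i : Fin g =>
            FreeGroup.of (Sum.inl i : Fin g ⊕ Fin g) *
            FreeGroup.of (Sum.inr i : Fin g ⊕ Fin g) *
            (FreeGroup.of (Sum.inl i : Fin g ⊕ Fin g))⁻¹ *
            (FreeGroup.of (Sum.inr i : Fin g ⊕ Fin g))⁻¹)).prod} :
          Set (FreeGroup (Fin g ⊕ Fin g)))
  have h2 := congrArg (Subgroup.map e.toMonoidHom) h1
  rw [MonoidHom.map_closure] at h2
  rw [Subgroup.map_top_of_surjective _ e.surjective] at h2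
  rw [← h2]
  congr 1
  ext z
  constructor
  · rintro (⟨i, rfl⟩ | ⟨i, rfl⟩)
    · exact ⟨_, ⟨Sum.inl i, rfl⟩, (he i).1⟩
    · exact ⟨_, ⟨Sum.inr i, rfl⟩, (he i).2⟩
  · rintro ⟨_, ⟨i | i, rfl⟩, rfl⟩
    · exact Or.inl ⟨i, ((he i).1).symm⟩
    · exact Or.inr ⟨i, ((he i).2).symm⟩

theorem IsSurf.relWord_eq {g : ℕ} {G : Type*} [Group G] {a b : Fin g → G} (h : IsSurf a b) :
    relWord a b = 1 := by
  obtain ⟨e, he⟩ := h.iso
  have h1 : relWord (fun i => (PresentedGroup.of (Sum.inl i) : SurfGroup g))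
      (fun i => (PresentedGroup.of (Sum.inr i) : SurfGroup g)) = 1 := by
    have h2 := map_relWord (PresentedGroup.mk ({(List.ofFn (fun i : Fin g =>
            FreeGroup.of (Sum.inl i : Fin g ⊕ Fin g) *
            FreeGroup.of (Sum.inr i : Fin g ⊕ Fin g) *
            (FreeGroup.of (Sum.inl i : Fin g ⊕ Fin g))⁻¹ *
            (FreeGroup.of (Sum.inr i : Fin g ⊕ Fin g))⁻¹)).prod} :
          Set (FreeGroup (Fin g ⊕ Fin g))))
      (fun i : Fin g => FreeGroup.of (Sum.inl i : Fin g ⊕ Fin g))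
      (fun i : Fin g => FreeGroup.of (Sum.inr i : Fin g ⊕ Fin g))
    rw [show (fun i => (PresentedGroup.of (Sum.inl i) : SurfGroup g)) = fun i =>
      (PresentedGroup.mk _ (FreeGroup.of (Sum.inl i : Fin g ⊕ Fin g)) : SurfGroup g) from rfl,
      show (fun i => (PresentedGroup.of (Sum.inr i) : SurfGroup g)) = fun i =>
      (PresentedGroup.mk _ (FreeGroup.of (Sum.inr i : Fin g ⊕ Fin g)) : SurfGroup g) from rfl,
      ← h2]
    exact PresentedGroup.one_of_mem (Set.mem_singleton _)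
  have h3 := map_relWord e.toMonoidHom (fun i => (PresentedGroup.of (Sum.inl i) : SurfGroup g))
      (fun i => (PresentedGroup.of (Sum.inr i) : SurfGroup g))
  rw [h1, map_one] at h3
  rw [h3]
  congr 1
  · funext i; exact ((he i).1).symm
  · funext i; exact ((he i).2).symm

/-- Elements of an extension of a surface group are generated by the kernel and by lifts of the
generators. -/
theorem closure_ext {g : ℕ} {G : Type*} [Group G] {a b : Fin g → G} (h : IsSurf a b)
    {P : Type*} [Group P] (π : P →* G) {x y : Fin g → P} (hx : ∀ i, π (x i) = a i)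
    (hy : ∀ i, π (y i) = b i) (S : Subgroup P) (hk : π.ker ≤ S) (hxS : ∀ i, x i ∈ S)
    (hyS : ∀ i, y i ∈ S) : S = ⊤ := by
  have h1 : S.map π = ⊤ := by
    rw [eq_top_iff, ← h.closure_eq, Subgroup.closure_le]
    rintro z (⟨i, rfl⟩ | ⟨i, rfl⟩)
    · exact ⟨x i, hxS i, hx i⟩
    · exact ⟨y i, hyS i, hy i⟩
  rw [eq_top_iff]
  intro p _
  have h2 : π p ∈ S.map π := by rw [h1]; trivial
  obtain ⟨q, hq, hqp⟩ := h2
  have h3 : q⁻¹ * p ∈ S := hk (by rw [MonoidHom.mem_ker, map_mul, map_inv, hqp, inv_mul_cancel])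
  have h4 := S.mul_mem hq h3
  rwa [mul_inv_cancel_left] at h4

theorem relWord_mem_ker {g : ℕ} {G : Type*} [Group G] {a b : Fin g → G} (h : IsSurf a b)
    {P : Type*} [Group P] (π : P →* G) {x y : Fin g → P} (hx : ∀ i, π (x i) = a i)
    (hy : ∀ i, π (y i) = b i) : relWord x y ∈ π.ker := by
  rw [MonoidHom.mem_ker, map_relWord]
  simp only [hx, hy]
  exact h.relWord_eq

/-- An extension of a surface group is presented by its kernel and by lifts of the generators. -/
theorem compare {g : ℕ} {G : Type*} [Group G] {a b : Fin g → G} (h : IsSurf a b)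
    {P T : Type*} [Group P] [Group T] (π : P →* G) {x y : Fin g → P} (hx : ∀ i, π (x i) = a i)
    (hy : ∀ i, π (y i) = b i) (ι : π.ker →* T) (s t : Fin g → T)
    (hs : ∀ i (m m' : π.ker), (m' : P) = x i * m * (x i)⁻¹ → s i * ι m * (s i)⁻¹ = ι m')
    (ht : ∀ i (m m' : π.ker), (m' : P) = y i * m * (y i)⁻¹ → t i * ι m * (t i)⁻¹ = ι m')
    (hrel : ∀ m : π.ker, (m : P) = relWord x y → relWord s t = ι m) :
    ∃ θ : P →* T, (∀ m : π.ker, θ m = ι m) ∧ (∀ i, θ (x i) = s i) ∧ (∀ i, θ (y i) = t i) := by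
  classical
  let D : Subgroup (P × T) := ((π.ker.subtype).prod ι).range
  have hD : ∀ z : P × T, z ∈ D ↔ ∃ m : π.ker, (m : P) = z.1 ∧ ι m = z.2 := by
    intro z
    constructor
    · rintro ⟨m, rfl⟩
      exact ⟨m, rfl, rfl⟩
    · rintro ⟨m, h1, h2⟩
      exact ⟨m, Prod.ext h1 h2⟩
  -- normaliser
  have hnorm : ∀ (u : P) (v : T), (∀ (m m' : π.ker), (m' : P) = u * m * u⁻¹ → v * ι m * v⁻¹ = ι m') →
      (u, v) ∈ Subgroup.normalizer (D : Set (P × T)) := by
    intro u v huv
    rw [Subgroup.mem_normalizer_iff]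
    intro z
    constructor
    · intro hz
      obtain ⟨m, h1, h2⟩ := (hD z).mp hz
      have hm' : u * m * u⁻¹ ∈ π.ker := by
        have := m.2
        rw [MonoidHom.mem_ker] at this ⊢
        rw [map_mul, map_mul, this, map_inv, mul_one, mul_inv_cancel]
      refine (hD _).mpr ⟨⟨u * m * u⁻¹, hm'⟩, ?_, ?_⟩
      · change u * (m : P) * u⁻¹ = u * z.1 * u⁻¹
        rw [h1]
      · rw [← huv m ⟨_, hm'⟩ rfl, h2]
        rfl
    · intro hz
      obtain ⟨m', h1, h2⟩ := (hD _).mp hz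
      change (m' : P) = u * z.1 * u⁻¹ at h1
      change ι m' = v * z.2 * v⁻¹ at h2
      have hm : z.1 ∈ π.ker := by
        have h3 : z.1 = u⁻¹ * m' * u := by rw [h1]; group
        have h4 := m'.2
        rw [MonoidHom.mem_ker] at h4 ⊢
        rw [h3, map_mul, map_mul, h4, map_inv, mul_one, inv_mul_cancel]
      refine (hD z).mpr ⟨⟨z.1, hm⟩, rfl, ?_⟩
      have h5 := huv ⟨z.1, hm⟩ m' h1
      rw [h2] at h5
      exact mul_left_cancel (mul_right_cancel h5)
  let Nm := Subgroup.normalizer (D : Set (P × T))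
  let D' : Subgroup Nm := D.subgroupOf Nm
  have hDle : D ≤ Nm := Subgroup.le_normalizer
  have : D'.Normal := Subgroup.normal_in_normalizer
  let X : Fin g → Nm := fun i => ⟨(x i, s i), hnorm _ _ (hs i)⟩
  let Y : Fin g → Nm := fun i => ⟨(y i, t i), hnorm _ _ (ht i)⟩
  have hXY : relWord X Y ∈ D' := by
    rw [Subgroup.mem_subgroupOf]
    have h1 : ((relWord X Y : Nm) : P × T) = relWord (fun i => (X i : P × T)) (fun i => (Y i : P × T)) :=
      map_relWord Nm.subtype X Y
    rw [h1, hD]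
    refine ⟨⟨relWord x y, relWord_mem_ker h π hx hy⟩, ?_, ?_⟩
    · have := map_relWord (MonoidHom.fst P T) (fun i => (X i : P × T)) (fun i => (Y i : P × T))
      exact this.symm
    · have := map_relWord (MonoidHom.snd P T) (fun i => (X i : P × T)) (fun i => (Y i : P × T))
      rw [← hrel _ rfl]
      exact this.symm
  obtain ⟨j, hja, hjb⟩ := h.lift (fun i => (QuotientGroup.mk' D' (X i))) (fun i => QuotientGroup.mk' D' (Y i))
    (by
      rw [← map_relWord]
      exact (QuotientGroup.eq_one_iff _).mpr hXY)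
  -- the graph
  let S : Subgroup Nm := MonoidHom.eqLocus (QuotientGroup.mk' D')
    ((j.comp π).comp ((MonoidHom.fst P T).comp Nm.subtype))
  have hS : ∀ z : Nm, z ∈ S ↔ QuotientGroup.mk' D' z = j (π (z : P × T).1) := fun z => Iff.rfl
  let p1 : S →* P := ((MonoidHom.fst P T).comp Nm.subtype).comp S.subtype
  let p2 : S →* T := ((MonoidHom.snd P T).comp Nm.subtype).comp S.subtype
  have hp1inj : Function.Injective p1 := by
    rw [injective_iff_map_eq_one]
    intro z hz
    have h1 : ((z : Nm) : P × T).1 = 1 := hz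
    have h2 := (hS z).mp z.2
    rw [h1, map_one, map_one] at h2
    have h3 : (z : Nm) ∈ D' := (QuotientGroup.eq_one_iff _).mp h2
    rw [Subgroup.mem_subgroupOf, hD] at h3
    obtain ⟨m, hm1, hm2⟩ := h3
    have h4 : m = 1 := by
      apply Subtype.ext
      rw [hm1, h1]
      rfl
    rw [h4, map_one] at hm2
    apply Subtype.ext
    apply Subtype.ext
    exact Prod.ext h1 hm2.symm
  have hmem_ker : ∀ m : π.ker, ∃ z : S, p1 z = m ∧ p2 z = ι m := by
    intro m
    have h1 : ((m : P), ι m) ∈ D := (hD _).mpr ⟨m, rfl, rfl⟩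
    refine ⟨⟨⟨((m : P), ι m), hDle h1⟩, ?_⟩, rfl, rfl⟩
    rw [hS]
    have h2 : π (m : P) = 1 := m.2
    change _ = j (π (m : P))
    rw [h2, map_one]
    exact (QuotientGroup.eq_one_iff _).mpr h1
  have hmem_x : ∀ i, ∃ z : S, p1 z = x i ∧ p2 z = s i := by
    intro i
    refine ⟨⟨X i, ?_⟩, rfl, rfl⟩
    rw [hS]
    change _ = j (π (x i))
    rw [hx, hja]
  have hmem_y : ∀ i, ∃ z : S, p1 z = y i ∧ p2 z = t i := by
    intro i
    refine ⟨⟨Y i, ?_⟩, rfl, rfl⟩
    rw [hS]
    change _ = j (π (y i))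
    rw [hy, hjb]
  have hp1surj : Function.Surjective p1 := by
    rw [← MonoidHom.range_eq_top]
    apply closure_ext h π hx hy
    · intro m hm
      obtain ⟨z, hz, _⟩ := hmem_ker ⟨m, hm⟩
      exact ⟨z, hz⟩
    · intro i
      obtain ⟨z, hz, _⟩ := hmem_x i
      exact ⟨z, hz⟩
    · intro i
      obtain ⟨z, hz, _⟩ := hmem_y i
      exact ⟨z, hz⟩
  let E : S ≃* P := MulEquiv.ofBijective p1 ⟨hp1inj, hp1surj⟩
  have hE : ∀ z : S, E.symm (p1 z) = z := fun z => E.symm_apply_apply z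
  refine ⟨p2.comp E.symm.toMonoidHom, fun m => ?_, fun i => ?_, fun i => ?_⟩
  · obtain ⟨z, hz1, hz2⟩ := hmem_ker m
    change p2 (E.symm (m : P)) = ι m
    rw [← hz1, hE, hz2]
  · obtain ⟨z, hz1, hz2⟩ := hmem_x i
    change p2 (E.symm (x i)) = s i
    rw [← hz1, hE, hz2]
  · obtain ⟨z, hz1, hz2⟩ := hmem_y i
    change p2 (E.symm (y i)) = t i
    rw [← hz1, hE, hz2]

end Pool.MP_59b15d_al.H24T
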