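import Mathlib
import Pool.Agent.H.MP_59b15d_al.h24t.Surf

set_option autoImplicit false

namespace Pool.MP_59b15d_al.H24T

theorem relWord_succ {P : Type*} [Group P] {k : ℕ} (x y : Fin (k + 1) → P) :
    relWord x y = x 0 * y 0 * (x 0)⁻¹ * (y 0)⁻¹ *
      relWord (fun i => x i.succ) (fun i => y i.succ) := by
  unfold relWord
  rw [List.ofFn_succ, List.prod_cons]

theorem comm_calc {W : Type*} [CommGroup W] (α β y : MulAut W) (w : W)
    (hc : y * (α * β * α⁻¹) = (α * β * α⁻¹) * y) :
    (SemidirectProduct.inr (y * α) : W ⋊[MonoidHom.id (MulAut W)] MulAut W) *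
      (SemidirectProduct.inl w * SemidirectProduct.inr β) * (SemidirectProduct.inr (y * α))⁻¹ *
      (SemidirectProduct.inl w * SemidirectProduct.inr β)⁻¹ =
    SemidirectProduct.inl (y (α w) * ((α * β * α⁻¹ * β⁻¹) w)⁻¹) *
      SemidirectProduct.inr (α * β * α⁻¹ * β⁻¹) := by
  have h1 : y * α * β * (y * α)⁻¹ = α * β * α⁻¹ := by
    rw [mul_inv_rev]
    calc y * α * β * (α⁻¹ * y⁻¹) = y * (α * β * α⁻¹) * y⁻¹ := by group
      _ = (α * β * α⁻¹) * y * y⁻¹ := by rw [hc]
      _ = α * β * α⁻¹ := by rw [mul_inv_cancel_right]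
  ext
  · simp only [SemidirectProduct.mul_left, SemidirectProduct.left_inr, SemidirectProduct.right_inr,
      SemidirectProduct.left_inl, SemidirectProduct.right_inl, SemidirectProduct.mul_right,
      SemidirectProduct.inv_left, SemidirectProduct.inv_right, one_mul, mul_one, map_one,
      MonoidHom.id_apply, MulAut.one_apply, inv_one, map_inv, mul_inv]
    rw [h1]
    simp only [MulAut.mul_apply, map_inv]
  · simp only [SemidirectProduct.mul_right, SemidirectProduct.right_inr,
      SemidirectProduct.right_inl, SemidirectProduct.inv_right, one_mul, mul_one]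
    rw [h1]


section act

variable {E K : Type*} [Group E] [CommGroup K] (c : E →* MulAut K) {n : ℕ}
  (χ : E → ZMod n) (hχ1 : χ 1 = 0) (hχ : ∀ e f, χ (e * f) = χ e + χ f)

include hχ1 hχ in
theorem chi_inv (e : E) : χ e⁻¹ = - χ e := by
  have h := hχ e⁻¹ e
  rw [inv_mul_cancel, hχ1] at h
  exact eq_neg_of_add_eq_zero_left h.symm

/-- The action on `K × (ZMod n → K)`. -/
def act : E →* MulAut (K × (ZMod n → K)) where
  toFun e :=
    { toFun := fun w => (c e w.1, fun ω => c e (w.2 (ω - χ e)))
      invFun := fun w => (c e⁻¹ w.1, fun ω => c e⁻¹ (w.2 (ω + χ e)))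
      left_inv := by
        intro w
        ext
        · simp
        · simp
      right_inv := by
        intro w
        ext
        · simp
        · simp
      map_mul' := by
        intro w w'
        ext
        · simp
        · simp }
  map_one' := by
    ext w
    · simp
    · simp [hχ1]
  map_mul' := by
    intro e f
    ext w
    · simp
    · simp [hχ, sub_sub]

theorem act_apply (e : E) (w : K × (ZMod n → K)) :
    act c χ hχ1 hχ e w = (c e w.1, fun ω => c e (w.2 (ω - χ e))) := rfl

/-- The transvection `(m, z) ↦ (m * z 0, z)`. -/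
def trans (K : Type*) [CommGroup K] (n : ℕ) : MulAut (K × (ZMod n → K)) where
  toFun w := (w.1 * w.2 0, w.2)
  invFun w := (w.1 * (w.2 0)⁻¹, w.2)
  left_inv := by intro w; ext <;> simp
  right_inv := by intro w; ext <;> simp
  map_mul' := by
    intro w w'
    ext
    · simp [mul_mul_mul_comm]
    · simp

theorem trans_apply (w : K × (ZMod n → K)) : trans K n w = (w.1 * w.2 0, w.2) := rfl

theorem trans_comm (e : E) (he : χ e = 0) :
    trans K n * act c χ hχ1 hχ e = act c χ hχ1 hχ e * trans K n := by
  ext w
  · simp [trans_apply, act_apply, he]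
  · simp [trans_apply, act_apply]

end act

/-- The bound for the index in the abelian case. -/
def bdAb (m : ℕ) : ℕ := (m * m ^ m.factorial) * (m * m ^ m.factorial).factorial

theorem bdAb_mono {m m' : ℕ} (h : m ≤ m') : bdAb m ≤ bdAb m' := by
  rcases Nat.eq_zero_or_pos m with rfl | hm
  · simp [bdAb]
  have h1 : m * m ^ m.factorial ≤ m' * m' ^ m'.factorial := by
    apply Nat.mul_le_mul h
    exact le_trans (Nat.pow_le_pow_left h _) (Nat.pow_le_pow_right (by omega)
      (Nat.factorial_le h))
  exact Nat.mul_le_mul h1 (Nat.factorial_le h1)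

theorem card_mulAut_le (W : Type*) [Group W] [Finite W] :
    Nat.card (MulAut W) ≤ (Nat.card W).factorial := by
  rw [← Nat.card_perm]
  apply Nat.card_le_card_of_injective (fun f : MulAut W => (f : W ≃* W).toEquiv)
  intro f g hfg
  exact MulEquiv.toEquiv_injective hfg

theorem mulAut_pow (W : Type*) [Group W] [Finite W] (f : MulAut W) :
    f ^ (Nat.card W).factorial = 1 := by
  have h1 : (MulAut.toPerm W f) ^ (Nat.card W).factorial = 1 := by
    rw [← Nat.card_perm]
    exact pow_card_eq_one'
  rw [← map_pow] at h1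
  refine MulEquiv.ext fun w => ?_
  exact Equiv.congr_fun h1 w

/-- The construction of finite quotients: in an extension of a surface group by a finite abelian
group, the kernel embeds in a finite quotient. -/
theorem abelian_case {k : ℕ} {G : Type*} [Group G] {a b : Fin (k + 1) → G} (h : IsSurf a b)
    {E : Type*} [Group E] (π : E →* G) (hπ : Function.Surjective π) [Finite π.ker]
    (hcomm : ∀ m m' : π.ker, m * m' = m' * m) :
    ∃ E₁ : Subgroup E, E₁.Normal ∧ E₁.FiniteIndex ∧ E₁.index ≤ bdAb (Nat.card π.ker) ∧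
      E₁ ⊓ π.ker = ⊥ := by
  classical
  let _ : CommGroup π.ker := { (inferInstance : Group π.ker) with mul_comm := hcomm }
  choose σ hσ using hπ
  let x : Fin (k + 1) → E := fun i => σ (a i)
  let y : Fin (k + 1) → E := fun i => σ (b i)
  have hx : ∀ i, π (x i) = a i := fun i => hσ _
  have hy : ∀ i, π (y i) = b i := fun i => hσ _
  let K := π.ker
  let c : E →* MulAut K := MulAut.conjNormal
  have hc : ∀ (e : E) (m : K), ((c e m : K) : E) = e * m * e⁻¹ := fun e m => rfl
  have hcK : ∀ m : K, c m = 1 := by
    intro m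
    ext m'
    rw [hc, MulAut.one_apply]
    have := congrArg Subtype.val (hcomm m m')
    push_cast at this
    rw [this, mul_inv_cancel_right]
  have : Finite (MulAut K) := by
    apply Finite.of_injective (fun (f : MulAut K) => (f : K → K))
    intro f g hfg
    exact DFunLike.coe_injective hfg
  let n : ℕ := (Nat.card K).factorial
  have hn : 0 < n := Nat.factorial_pos _
  have : NeZero n := ⟨hn.ne'⟩
  -- the character
  obtain ⟨X, hXa, hXb⟩ := h.lift (T := Multiplicative (ZMod n))
    (Fin.cons (Multiplicative.ofAdd 1) (fun _ => 1)) (fun _ => 1) (by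
      rw [relWord_succ]
      simp [relWord])
  let χ : E → ZMod n := fun e => Multiplicative.toAdd (X (π e))
  have hχ1 : χ 1 = 0 := by simp [χ]
  have hχ : ∀ e f, χ (e * f) = χ e + χ f := by
    intro e f
    simp [χ]
  have hχx0 : χ (x 0) = 1 := by
    change Multiplicative.toAdd (X (π (x 0))) = 1
    rw [hx, hXa]
    rfl
  have hχy : ∀ i, χ (y i) = 0 := by
    intro i
    change Multiplicative.toAdd (X (π (y i))) = 0
    rw [hy, hXb]
    rfl
  have hχinv := chi_inv χ hχ1 hχ
  let A := act c χ hχ1 hχ
  have hAK : ∀ m : K, A m = 1 := by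
    intro m
    have h1 : χ m = 0 := by
      change Multiplicative.toAdd (X (π m)) = 0
      have : π (m : E) = 1 := m.2
      rw [this, map_one]; rfl
    refine MulEquiv.ext fun w => ?_
    rw [act_apply, hcK, h1]
    simp
  -- the unipotent cocycle
  let u : MulAut K := c (y 0 * x 0 * (y 0)⁻¹)
  have hun : u ^ n = 1 := mulAut_pow K u
  let uu : ZMod n →+ Additive (MulAut K) :=
    ZMod.lift n ⟨zmultiplesHom (Additive (MulAut K)) (Additive.ofMul u), by
      rw [zmultiplesHom_apply, natCast_zsmul]
      exact hun⟩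
  have huu1 : uu 1 = Additive.ofMul u := by
    have := ZMod.lift_coe n ⟨zmultiplesHom (Additive (MulAut K)) (Additive.ofMul u), by
      rw [zmultiplesHom_apply, natCast_zsmul]
      exact hun⟩ 1
    rw [Int.cast_one] at this
    rw [show uu 1 = _ from this]
    simp
  let v : ZMod n → MulAut K := fun ω => Additive.toMul (uu ω)
  have hv0 : v 0 = 1 := by simp [v]
  have hv1 : ∀ ω, v (ω + 1) = u * v ω := by
    intro ω
    change Additive.toMul (uu (ω + 1)) = _
    rw [add_comm, map_add, huu1]
    rfl
  let m₀ : K := ⟨relWord x y, relWord_mem_ker h π hx hy⟩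
  let z₀ : ZMod n → K := fun ω => v (ω + 1) (c (x 0)⁻¹ m₀)
  let w₀ : K × (ZMod n → K) := (1, z₀)
  let W := K × (ZMod n → K)
  let T := W ⋊[MonoidHom.id (MulAut W)] MulAut W
  have : Finite W := inferInstanceAs (Finite (K × (ZMod n → K)))
  have : Finite (MulAut W) := by
    apply Finite.of_injective (fun (f : MulAut W) => (f : W → W))
    intro f g hfg
    exact DFunLike.coe_injective hfg
  have : Finite T := Finite.of_equiv _ (SemidirectProduct.equivProd).symm
  have hkey1 : ∀ ω, (A (x 0) w₀).2 ω = c (x 0) (v ω (c (x 0)⁻¹ m₀)) := by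
    intro ω
    rw [act_apply]
    change c (x 0) (v (ω - χ (x 0) + 1) _) = _
    rw [hχx0, sub_add_cancel]
  have hkey2 : (A (x 0) * A (y 0) * (A (x 0))⁻¹ * (A (y 0))⁻¹) w₀ = A (x 0) w₀ := by
    rw [← map_mul, ← map_inv, ← map_mul, ← map_inv, ← map_mul]
    refine Prod.ext ?_ ?_
    · change c _ 1 = c _ 1
      rw [map_one, map_one]
    · funext ω
      rw [hkey1, act_apply]
      have h1 : χ (x 0 * y 0 * (x 0)⁻¹ * (y 0)⁻¹) = 0 := by
        rw [hχ, hχ, hχ, hχinv, hχinv, hχy]; ring
      rw [h1]
      change c (x 0 * y 0 * (x 0)⁻¹ * (y 0)⁻¹) (v (ω - 0 + 1) _) = _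
      rw [sub_zero, hv1, MulAut.mul_apply]
      change c _ (c (y 0 * x 0 * (y 0)⁻¹) _) = _
      rw [← MulAut.mul_apply, ← map_mul]
      congr 2
      group
  let s : Fin (k + 1) → T := Fin.cons (SemidirectProduct.inr (trans K n * A (x 0)))
    (fun i => SemidirectProduct.inr (A (x i.succ)))
  let t : Fin (k + 1) → T := Fin.cons (SemidirectProduct.inl w₀ * SemidirectProduct.inr (A (y 0)))
    (fun i => SemidirectProduct.inr (A (y i.succ)))
  let ι : K →* T := SemidirectProduct.inl.comp (MonoidHom.inl K (ZMod n → K))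
  have hιinj : Function.Injective ι := by
    intro m m' hm
    have := SemidirectProduct.inl_injective hm
    exact (Prod.ext_iff.mp this).1
  have hAι : ∀ (e : E) (m m' : K), (m' : E) = e * m * e⁻¹ → A e (m, 1) = (m', 1) := by
    intro e m m' hm
    rw [act_apply]
    refine Prod.ext ?_ ?_
    · apply Subtype.ext
      rw [hm]
      rfl
    · funext ω
      simp
  have hconj : ∀ (α : MulAut W) (m : K), (SemidirectProduct.inr α : T) * ι m *
      (SemidirectProduct.inr α)⁻¹ = SemidirectProduct.inl (α (m, 1)) := by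
    intro α m
    have h1 := SemidirectProduct.inl_aut (φ := MonoidHom.id (MulAut W)) α ((m, 1) : W)
    rw [MonoidHom.id_apply] at h1
    rw [h1, map_inv]
    rfl
  obtain ⟨θ, hθ, -, -⟩ := compare h π hx hy ι s t
    (by
      intro i m m' hm
      revert hm
      refine Fin.cases (fun hm => ?_) (fun i hm => ?_) i
      · change (SemidirectProduct.inr (trans K n * A (x 0)) : T) * ι m *
          (SemidirectProduct.inr (trans K n * A (x 0)))⁻¹ = ι m'
        rw [hconj, MulAut.mul_apply, hAι _ _ _ hm, trans_apply]
        change SemidirectProduct.inl (m' * (1 : K), (1 : ZMod n → K)) = _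
        rw [mul_one]
        rfl
      · change (SemidirectProduct.inr (A (x i.succ)) : T) * ι m *
          (SemidirectProduct.inr (A (x i.succ)))⁻¹ = ι m'
        rw [hconj, hAι _ _ _ hm]
        rfl)
    (by
      intro i m m' hm
      revert hm
      refine Fin.cases (fun hm => ?_) (fun i hm => ?_) i
      · change (SemidirectProduct.inl w₀ * SemidirectProduct.inr (A (y 0)) : T) * ι m *
          (SemidirectProduct.inl w₀ * SemidirectProduct.inr (A (y 0)))⁻¹ = ι m'
        have h1 : (SemidirectProduct.inl w₀ * SemidirectProduct.inr (A (y 0)) : T) * ι m *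
          (SemidirectProduct.inl w₀ * SemidirectProduct.inr (A (y 0)))⁻¹ =
          SemidirectProduct.inl w₀ * (SemidirectProduct.inr (A (y 0)) * ι m *
          (SemidirectProduct.inr (A (y 0)))⁻¹) * (SemidirectProduct.inl w₀)⁻¹ := by group
        rw [h1, hconj, hAι _ _ _ hm, ← map_mul, ← map_inv, ← map_mul, mul_comm w₀,
          mul_inv_cancel_right]
        rfl
      · change (SemidirectProduct.inr (A (y i.succ)) : T) * ι m *
          (SemidirectProduct.inr (A (y i.succ)))⁻¹ = ι m'
        rw [hconj, hAι _ _ _ hm]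
        rfl)
    (by
      intro m hm
      have hm' : m = m₀ := Subtype.ext hm
      rw [hm', relWord_succ]
      change (SemidirectProduct.inr (trans K n * A (x 0)) : T) *
        (SemidirectProduct.inl w₀ * SemidirectProduct.inr (A (y 0))) *
        (SemidirectProduct.inr (trans K n * A (x 0)))⁻¹ *
        (SemidirectProduct.inl w₀ * SemidirectProduct.inr (A (y 0)))⁻¹ *
        relWord (fun i => (SemidirectProduct.inr (A (x (Fin.succ i))) : T))
          (fun i => (SemidirectProduct.inr (A (y (Fin.succ i))) : T)) = ι m₀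
      rw [comm_calc (A (x 0)) (A (y 0)) (trans K n) w₀]
      · have h1 : trans K n (A (x 0) w₀) *
            ((A (x 0) * A (y 0) * (A (x 0))⁻¹ * (A (y 0))⁻¹) w₀)⁻¹ = (m₀, 1) := by
          rw [hkey2, trans_apply]
          refine Prod.ext ?_ ?_
          · change (A (x 0) w₀).1 * (A (x 0) w₀).2 0 * ((A (x 0) w₀).1)⁻¹ = m₀
            rw [hkey1, hv0, MulAut.one_apply, ← MulAut.mul_apply, ← map_mul, mul_inv_cancel,
              map_one, MulAut.one_apply, mul_comm, inv_mul_cancel_left]
          · change (A (x 0) w₀).2 * ((A (x 0) w₀).2)⁻¹ = 1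
            rw [mul_inv_cancel]
        rw [h1]
        have h2 : relWord (fun i => (SemidirectProduct.inr (A (x (Fin.succ i))) : T))
          (fun i => (SemidirectProduct.inr (A (y (Fin.succ i))) : T)) =
          SemidirectProduct.inr (A (relWord (fun i => x (Fin.succ i)) (fun i => y (Fin.succ i)))) := by
          have := map_relWord ((SemidirectProduct.inr : MulAut W →* T).comp A)
            (fun i => x (Fin.succ i)) (fun i => y (Fin.succ i))
          exact this.symm
        rw [h2, mul_assoc, ← map_mul, ← map_inv, ← map_inv, ← map_mul, ← map_mul, ← map_mul,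
          ← map_mul, ← relWord_succ]
        have h3 : A (relWord x y) = 1 := hAK m₀
        rw [h3, map_one, mul_one]
        rfl
      · rw [← map_mul, ← map_inv, ← map_mul]
        apply trans_comm
        rw [hχ, hχ, hχinv, hχy]
        ring)
  refine ⟨θ.ker, inferInstance, Subgroup.finiteIndex_ker θ, ?_, ?_⟩
  · rw [Subgroup.index_ker]
    have h1 : Nat.card θ.range ≤ Nat.card T :=
      Nat.card_le_card_of_injective _ Subtype.val_injective
    have h2 : Nat.card T = Nat.card W * Nat.card (MulAut W) := by
      rw [Nat.card_congr (SemidirectProduct.equivProd (N := W) (G := MulAut W)), Nat.card_prod]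
    have h3 : Nat.card W = Nat.card K * Nat.card K ^ (Nat.card K).factorial := by
      rw [show Nat.card W = Nat.card (K × (ZMod n → K)) from rfl, Nat.card_prod, Nat.card_fun,
        Nat.card_zmod]
    have h4 := card_mulAut_le W
    calc Nat.card θ.range ≤ Nat.card W * Nat.card (MulAut W) := by rw [← h2]; exact h1
      _ ≤ Nat.card W * (Nat.card W).factorial := Nat.mul_le_mul_left _ h4
      _ = bdAb (Nat.card π.ker) := by rw [h3]; rfl
  rw [eq_bot_iff]
  rintro e ⟨he1, he2⟩
  have h1 := hθ ⟨e, he2⟩
  have h2 : ι ⟨e, he2⟩ = ι 1 := by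
    rw [← h1, map_one]
    exact he1
  have h3 := congrArg Subtype.val (hιinj h2)
  exact h3

end Pool.MP_59b15d_al.H24T
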