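import Mathlib
import Pool.Agent.H.MP_59b15d_al.h24t.Ab

set_option autoImplicit false

namespace Pool.MP_59b15d_al.H24T

/-- `G` permutes the coordinates of `G ⧸ U → C`. -/
def permAct {G : Type*} [Group G] (U : Subgroup G) [U.Normal] (C : Type*) [Group C] :
    G →* MulAut (G ⧸ U → C) where
  toFun g :=
    { toFun := fun c i => c (i * (g : G ⧸ U))
      invFun := fun c i => c (i * (g : G ⧸ U)⁻¹)
      left_inv := by intro c; funext i; simp
      right_inv := by intro c; funext i; simp
      map_mul' := by intro c c'; rfl }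
  map_one' := by ext c i; simp
  map_mul' := by
    intro g g'
    ext c i
    simp [mul_assoc]

theorem permAct_apply {G : Type*} [Group G] (U : Subgroup G) [U.Normal] (C : Type*) [Group C]
    (g : G) (c : G ⧸ U → C) (i : G ⧸ U) : permAct U C g c i = c (i * (g : G ⧸ U)) := rfl

theorem central_case {k : ℕ} {G : Type*} [Group G] {a b : Fin (k + 1) → G} (h : IsSurf a b)
    (U : Subgroup G) [U.Normal] [U.FiniteIndex] {C : Type*} [Group C] (π : C →* G)
    (hrange : π.range = U) [Finite π.ker] (hcentral : ∀ z ∈ π.ker, ∀ c : C, z * c = c * z) :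
    ∃ C₁ : Subgroup C, C₁.FiniteIndex ∧ C₁.index ≤ bdAb (Nat.card π.ker ^ U.index) ∧
      C₁ ⊓ π.ker = ⊥ := by
  classical
  have hfinQ : Finite (G ⧸ U) := Subgroup.finite_quotient_of_finiteIndex
  have ht : ∀ i : G ⧸ U, ∃ g : G, (g : G ⧸ U) = i := fun i => QuotientGroup.mk_surjective i
  choose t ht using ht
  have htU : ∀ (i : G ⧸ U) (g : G), t i * g * (t (i * (g : G ⧸ U)))⁻¹ ∈ U := by
    intro i g
    rw [← QuotientGroup.eq_one_iff, QuotientGroup.mk_mul, QuotientGroup.mk_mul,
      QuotientGroup.mk_inv, ht, ht, mul_inv_cancel]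
  have hUr : ∀ u ∈ U, ∃ c : C, π c = u := by
    intro u hu
    rw [← hrange] at hu
    exact hu
  let S := (G ⧸ U → C) ⋊[permAct U C] G
  let E : Subgroup S :=
    { carrier := {s | ∀ i, π (s.left i) = t i * s.right * (t (i * (s.right : G ⧸ U)))⁻¹}
      mul_mem' := by
        intro s s' hs hs' i
        rw [SemidirectProduct.mul_left, SemidirectProduct.mul_right, Pi.mul_apply, map_mul, hs i,
          permAct_apply, hs' (i * (s.right : G ⧸ U)), QuotientGroup.mk_mul, mul_assoc i]
        group
      one_mem' := by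
        intro i
        rw [SemidirectProduct.one_left, SemidirectProduct.one_right, Pi.one_apply, map_one]
        rw [QuotientGroup.mk_one, mul_one, mul_one, mul_inv_cancel]
      inv_mem' := by
        intro s hs i
        rw [SemidirectProduct.inv_left, SemidirectProduct.inv_right, permAct_apply, Pi.inv_apply,
          map_inv, hs (i * ((s.right⁻¹ : G) : G ⧸ U)), QuotientGroup.mk_inv, inv_mul_cancel_right]
        group }
  have hE : ∀ s : S, s ∈ E ↔ ∀ i, π (s.left i) = t i * s.right * (t (i * (s.right : G ⧸ U)))⁻¹ :=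
    fun s => Iff.rfl
  let πE : E →* G := SemidirectProduct.rightHom.comp E.subtype
  have hπE : ∀ e : E, πE e = (e : S).right := fun e => rfl
  have hlift : ∀ (g : G) (c : C), π c = t 1 * g * (t (1 * (g : G ⧸ U)))⁻¹ →
      ∃ e : E, πE e = g ∧ (e : S).left 1 = c := by
    intro g c hc
    have h1 : ∀ i : G ⧸ U, ∃ c' : C, π c' = t i * g * (t (i * (g : G ⧸ U)))⁻¹ := by
      intro i
      exact hUr _ (htU i g)
    choose f hf using h1
    refine ⟨⟨⟨Function.update f 1 c, g⟩, ?_⟩, rfl, ?_⟩
    · rw [hE]
      intro i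
      change π (Function.update f 1 c i) = t i * g * (t (i * (g : G ⧸ U)))⁻¹
      by_cases hi : i = 1
      · subst hi
        rw [Function.update_self]
        exact hc
      · rw [Function.update_of_ne hi]
        exact hf i
    · exact Function.update_self _ _ _
  have hπEsurj : Function.Surjective πE := by
    intro g
    obtain ⟨c', hc'⟩ := hUr _ (htU 1 g)
    obtain ⟨e, he, -⟩ := hlift g c' hc'
    exact ⟨e, he⟩
  have hker : ∀ e : πE.ker, (∀ i, π (((e : E) : S).left i) = 1) ∧ ((e : E) : S).right = 1 := by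
    intro e
    have h1 : ((e : E) : S).right = 1 := e.2
    refine ⟨fun i => ?_, h1⟩
    rw [(hE _).mp (e : E).2 i, h1, QuotientGroup.mk_one, mul_one, mul_one, mul_inv_cancel]
  let F : πE.ker → (G ⧸ U → π.ker) := fun e i => ⟨((e : E) : S).left i, (hker e).1 i⟩
  have hF : Function.Injective F := by
    intro e e' hee
    apply Subtype.ext
    apply Subtype.ext
    refine SemidirectProduct.ext ?_ ?_
    · funext i
      exact congrArg Subtype.val (congrFun hee i)
    · rw [(hker e).2, (hker e').2]
  have hfinker : Finite πE.ker := Finite.of_injective F hF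
  have hcardker : Nat.card πE.ker ≤ Nat.card π.ker ^ U.index := by
    have h1 := Nat.card_le_card_of_injective F hF
    rwa [Nat.card_fun] at h1
  have hcomm : ∀ m m' : πE.ker, m * m' = m' * m := by
    intro m m'
    apply Subtype.ext
    apply Subtype.ext
    refine SemidirectProduct.ext ?_ ?_
    · funext i
      change (((m : E) : S) * ((m' : E) : S)).left i = (((m' : E) : S) * ((m : E) : S)).left i
      rw [SemidirectProduct.mul_left, SemidirectProduct.mul_left, (hker m).2, (hker m').2, map_one]
      rw [Pi.mul_apply, Pi.mul_apply]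
      exact hcentral _ ((hker m).1 i) _
    · change (((m : E) : S) * ((m' : E) : S)).right = (((m' : E) : S) * ((m : E) : S)).right
      rw [SemidirectProduct.mul_right, SemidirectProduct.mul_right, (hker m).2, (hker m').2]
  obtain ⟨E₁, hE₁n, hE₁f, hE₁i, hE₁⟩ := abelian_case h πE hπEsurj hcomm
  -- evaluation at the base coset
  let EU : Subgroup E := U.comap πE
  let ev : EU →* C :=
    { toFun := fun e => ((e : E) : S).left 1
      map_one' := rfl
      map_mul' := by
        intro e e'
        change (((e : E) : S) * ((e' : E) : S)).left 1 = ((e : E) : S).left 1 * ((e' : E) : S).left 1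
        rw [SemidirectProduct.mul_left, Pi.mul_apply, permAct_apply]
        have h1 : (((e : E) : S).right : G ⧸ U) = 1 := (QuotientGroup.eq_one_iff _).mpr e.2
        rw [h1, mul_one] }
  have hπev : ∀ e : EU, π (ev e) = t 1 * ((e : E) : S).right * (t 1)⁻¹ := by
    intro e
    have h1 : (((e : E) : S).right : G ⧸ U) = 1 := (QuotientGroup.eq_one_iff _).mpr e.2
    have h2 := (hE _).mp (e : E).2 1
    rw [h1, mul_one] at h2
    exact h2
  have hevsurj : Function.Surjective ev := by
    intro c
    have hcU : π c ∈ U := by rw [← hrange]; exact ⟨c, rfl⟩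
    have hgU : (t 1)⁻¹ * π c * t 1 ∈ U := by
      have := (inferInstance : U.Normal).conj_mem (π c) hcU (t 1)⁻¹
      rwa [inv_inv] at this
    have hg1 : (((t 1)⁻¹ * π c * t 1 : G) : G ⧸ U) = 1 := (QuotientGroup.eq_one_iff _).mpr hgU
    obtain ⟨e, he1, he2⟩ := hlift ((t 1)⁻¹ * π c * t 1) c (by
      rw [hg1, mul_one]; group)
    refine ⟨⟨e, ?_⟩, he2⟩
    rw [Subgroup.mem_comap, he1]
    exact hgU
  refine ⟨(E₁.subgroupOf EU).map ev, ?_, ?_, ?_⟩
  · have h1 : (E₁.subgroupOf EU).FiniteIndex := inferInstance
    have h2 := (E₁.subgroupOf EU).index_map_dvd hevsurj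
    exact ⟨fun h3 => h1.index_ne_zero (by
      rw [h3] at h2
      exact Nat.eq_zero_of_zero_dvd h2)⟩
  · have h1 : (E₁.subgroupOf EU).FiniteIndex := inferInstance
    have h2 := Nat.le_of_dvd (Nat.pos_of_ne_zero h1.index_ne_zero)
      ((E₁.subgroupOf EU).index_map_dvd hevsurj)
    have h3 : (E₁.subgroupOf EU).index ≤ E₁.index := by
      have h4 := Subgroup.relIndex_le_of_le_right (H := E₁) (K := EU) (L := ⊤) le_top
        (by rw [Subgroup.relIndex_top_right]; exact hE₁f.index_ne_zero)
      rw [Subgroup.relIndex_top_right] at h4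
      exact h4
    exact le_trans h2 (le_trans h3 (le_trans hE₁i (bdAb_mono hcardker)))
  · rw [eq_bot_iff]
    rintro c ⟨⟨e, he, rfl⟩, hc⟩
    have h1 : π (ev e) = 1 := hc
    rw [hπev] at h1
    have h2 : ((e : E) : S).right = 1 := by
      rw [mul_inv_eq_one] at h1
      exact mul_eq_left.mp h1
    have h3 : (e : E) ∈ E₁ ⊓ πE.ker := ⟨he, h2⟩
    rw [hE₁, Subgroup.mem_bot] at h3
    have h4 : e = 1 := Subtype.ext h3
    rw [h4, map_one]
    exact Subgroup.mem_bot.mpr rfl

/-- The bound for the index in the general case. -/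
def bdGen (m c : ℕ) : ℕ :=
  (bdAb (m ^ (m.factorial * c).factorial) * (m.factorial * (m.factorial * c).factorial)).factorial

theorem bdGen_mono {m m' c c' : ℕ} (hm : 0 < m) (h : m ≤ m') (hc : c ≤ c') :
    bdGen m c ≤ bdGen m' c' := by
  have h1 : (m.factorial * c).factorial ≤ (m'.factorial * c').factorial :=
    Nat.factorial_le (Nat.mul_le_mul (Nat.factorial_le h) hc)
  apply Nat.factorial_le
  apply Nat.mul_le_mul _ (Nat.mul_le_mul (Nat.factorial_le h) h1)
  apply bdAb_mono
  exact le_trans (Nat.pow_le_pow_left h _) (Nat.pow_le_pow_right (by omega) h1)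

theorem index_normalCore_le {G : Type*} [Group G] (H : Subgroup G) [H.FiniteIndex] :
    H.normalCore.index ≤ H.index.factorial := by
  have hfin : Finite (G ⧸ H) := Subgroup.finite_quotient_of_finiteIndex
  rw [Subgroup.normalCore_eq_ker, Subgroup.index_ker]
  have h1 : Nat.card (MulAction.toPermHom G (G ⧸ H)).range ≤ Nat.card (Equiv.Perm (G ⧸ H)) :=
    Nat.card_le_card_of_injective _ Subtype.val_injective
  rwa [Nat.card_perm] at h1

theorem index_map_le {P G : Type*} [Group P] [Group G] (π : P →* G) (H : Subgroup P)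
    [H.FiniteIndex] : (H.map π).index ≤ H.index * π.range.index := by
  rw [Subgroup.index_map]
  apply Nat.mul_le_mul_right
  exact Nat.le_of_dvd (Nat.pos_of_ne_zero Subgroup.FiniteIndex.index_ne_zero)
    (Subgroup.index_dvd_of_le le_sup_left)

theorem finiteIndex_map {P G : Type*} [Group P] [Group G] (π : P →* G) (H : Subgroup P)
    [H.FiniteIndex] (hπ : π.range.index ≠ 0) : (H.map π).FiniteIndex := by
  refine ⟨?_⟩
  rw [Subgroup.index_map]
  refine mul_ne_zero ?_ hπ
  have : (H ⊔ π.ker).FiniteIndex := Subgroup.finiteIndex_of_le (H := H) le_sup_left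
  exact this.index_ne_zero

/-- Every extension of a finite-index subgroup of a surface group by a finite group is virtually
split, with explicit bounds. -/
theorem general_case {k : ℕ} {G : Type*} [Group G] {a b : Fin (k + 1) → G} (h : IsSurf a b)
    {P : Type*} [Group P] (π : P →* G) (hπ : π.range.index ≠ 0) [Finite π.ker] :
    ∃ P₁ : Subgroup P, P₁.Normal ∧ P₁.FiniteIndex ∧
      P₁.index ≤ bdGen (Nat.card π.ker) π.range.index ∧ P₁ ⊓ π.ker = ⊥ := by
  classical
  let C : Subgroup P := Subgroup.centralizer (π.ker : Set P)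
  have hfinM : Finite (MulAut π.ker) := by
    apply Finite.of_injective (fun (f : MulAut π.ker) => (f : π.ker → π.ker))
    intro f g hfg
    exact DFunLike.coe_injective hfg
  have hCf' : C.FiniteIndex ∧ C.index ≤ (Nat.card π.ker).factorial := by
    have h1 : (MulAut.conjNormal (H := π.ker)).ker ≤ C := by
      intro p hp
      rw [Subgroup.mem_centralizer_iff]
      intro m hm
      have h2 : MulAut.conjNormal (H := π.ker) p ⟨m, hm⟩ = ⟨m, hm⟩ := by
        rw [MonoidHom.mem_ker] at hp
        rw [hp]; rfl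
      have h3 := congrArg Subtype.val h2
      rw [MulAut.conjNormal_apply] at h3
      change p * m * p⁻¹ = m at h3
      rw [mul_inv_eq_iff_eq_mul] at h3
      exact h3.symm
    have h4 : (MulAut.conjNormal (H := π.ker)).ker.FiniteIndex := Subgroup.finiteIndex_ker _
    refine ⟨Subgroup.finiteIndex_of_le h1, ?_⟩
    have h5 : C.index ≤ (MulAut.conjNormal (H := π.ker)).ker.index :=
      Nat.le_of_dvd (Nat.pos_of_ne_zero h4.index_ne_zero) (Subgroup.index_dvd_of_le h1)
    refine le_trans h5 (le_trans ?_ (card_mulAut_le π.ker))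
    rw [Subgroup.index_ker]
    exact Nat.card_le_card_of_injective _ Subtype.val_injective
  obtain ⟨hCf, hCi⟩ := hCf'
  let V : Subgroup G := C.map π
  have hVf : V.FiniteIndex := finiteIndex_map π C hπ
  have hVi : V.index ≤ (Nat.card π.ker).factorial * π.range.index :=
    le_trans (index_map_le π C) (Nat.mul_le_mul_right _ hCi)
  let U : Subgroup G := V.normalCore
  have hUi : U.index ≤ ((Nat.card π.ker).factorial * π.range.index).factorial :=
    le_trans (index_normalCore_le V) (Nat.factorial_le hVi)
  let D : Subgroup P := C ⊓ U.comap π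
  have hUcf : (U.comap π).FiniteIndex := by
    refine ⟨?_⟩
    rw [Subgroup.index_comap]
    exact (inferInstance : (U.subgroupOf π.range).FiniteIndex).index_ne_zero
  have hUci : (U.comap π).index ≤ U.index := by
    rw [Subgroup.index_comap]
    have h4 := Subgroup.relIndex_le_of_le_right (H := U) (K := π.range) (L := ⊤) le_top
        (by rw [Subgroup.relIndex_top_right]; exact Subgroup.FiniteIndex.index_ne_zero)
    rw [Subgroup.relIndex_top_right] at h4
    exact h4
  have hDf : D.FiniteIndex := inferInstance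
  have hDi : D.index ≤ (Nat.card π.ker).factorial *
      ((Nat.card π.ker).factorial * π.range.index).factorial :=
    le_trans Subgroup.index_inf_le (Nat.mul_le_mul hCi (le_trans hUci hUi))
  let πD : D →* G := π.comp D.subtype
  have hrange : πD.range = U := by
    apply le_antisymm
    · rintro _ ⟨d, rfl⟩
      exact d.2.2
    · intro u hu
      obtain ⟨c, hc, rfl⟩ := Subgroup.normalCore_le V hu
      exact ⟨⟨c, hc, hu⟩, rfl⟩
  let F : πD.ker → π.ker := fun c => ⟨((c : D) : P), c.2⟩
  have hF : Function.Injective F := by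
    intro c c' hcc
    have h1 := congrArg (fun z : π.ker => (z : P)) hcc
    exact Subtype.ext (Subtype.ext h1)
  have hfin : Finite πD.ker := Finite.of_injective F hF
  have hcard : Nat.card πD.ker ≤ Nat.card π.ker := Nat.card_le_card_of_injective F hF
  obtain ⟨C₁, hC₁f, hC₁i, hC₁⟩ := central_case h U πD hrange (by
    intro z hz c
    apply Subtype.ext
    have h1 := (Subgroup.mem_centralizer_iff.mp c.2.1) (z : P) hz
    exact h1)
  let P₂ : Subgroup P := C₁.map D.subtype
  have hP₂f : P₂.FiniteIndex := by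
    refine ⟨?_⟩
    rw [Subgroup.index_map_subtype]
    exact mul_ne_zero hC₁f.index_ne_zero hDf.index_ne_zero
  refine ⟨P₂.normalCore, inferInstance, inferInstance, ?_, ?_⟩
  · refine le_trans (index_normalCore_le P₂) (Nat.factorial_le ?_)
    rw [Subgroup.index_map_subtype]
    apply Nat.mul_le_mul _ hDi
    refine le_trans hC₁i (bdAb_mono ?_)
    exact le_trans (Nat.pow_le_pow_left hcard _) (Nat.pow_le_pow_right Nat.card_pos hUi)
  rw [eq_bot_iff]
  rintro p ⟨hp1, hp2⟩
  have h1 : p ∈ P₂ := Subgroup.normalCore_le P₂ hp1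
  obtain ⟨c, hc, rfl⟩ := h1
  have h2 : c ∈ C₁ ⊓ πD.ker := ⟨hc, hp2⟩
  rw [hC₁, Subgroup.mem_bot] at h2
  rw [h2, map_one]
  exact Subgroup.mem_bot.mpr rfl

end Pool.MP_59b15d_al.H24T
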