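import Mathlib
import Pool.Agent.H.MP_59b15d_al.h24t.Gen

set_option autoImplicit false

namespace Pool.MP_59b15d_al.H24T

section lift

variable {G P : Type*} [Group G] [Group P] (π : P →* G) (P₁ : Subgroup P)

theorem inj_of_inf_ker (hP₁ : P₁ ⊓ π.ker = ⊥) {u v : P} (hu : u ∈ P₁) (hv : v ∈ P₁)
    (h : π u = π v) : u = v := by
  have h1 : u⁻¹ * v ∈ P₁ ⊓ π.ker := by
    refine ⟨P₁.mul_mem (P₁.inv_mem hu) hv, ?_⟩
    change u⁻¹ * v ∈ π.ker
    rw [MonoidHom.mem_ker, map_mul, map_inv, h, inv_mul_cancel]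
  rw [hP₁, Subgroup.mem_bot, inv_mul_eq_one] at h1
  exact h1

theorem exists_endo [P₁.Normal] (hP₁ : P₁ ⊓ π.ker = ⊥) (φ : G →* G)
    (h : ∀ y : P, ∃ u ∈ P₁, π u = (π y)⁻¹ * φ (π y)) :
    ∃ ψ : P →* P, ∀ y, y⁻¹ * ψ y ∈ P₁ ∧ π (ψ y) = φ (π y) := by
  choose u hu hu' using h
  have hmul : ∀ y z : P, u (y * z) = z⁻¹ * u y * z * u z := by
    intro y z
    apply inj_of_inf_ker π P₁ hP₁ (hu _)
    · apply P₁.mul_mem _ (hu _)
      have := (inferInstance : P₁.Normal).conj_mem (u y) (hu y) z⁻¹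
      rwa [inv_inv] at this
    · rw [map_mul, map_mul, map_mul, hu', hu', hu', map_inv, map_mul, map_mul]
      group
  refine ⟨MonoidHom.mk' (fun y => y * u y) (fun y z => ?_), fun y => ⟨?_, ?_⟩⟩
  · rw [hmul]
    group
  · change y⁻¹ * (y * u y) ∈ P₁
    rw [inv_mul_cancel_left]
    exact hu y
  · change π (y * u y) = _
    rw [map_mul, hu', mul_inv_cancel_left]

theorem exists_auto [P₁.Normal] (hP₁ : P₁ ⊓ π.ker = ⊥) (φ : MulAut G)
    (h : ∀ x : G, x⁻¹ * φ x ∈ P₁.map π) :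
    ∃ ψ : MulAut P, ∀ y, y⁻¹ * ψ y ∈ P₁ ∧ π (ψ y) = φ (π y) := by
  obtain ⟨ψ, hψ⟩ := exists_endo π P₁ hP₁ φ.toMonoidHom (fun y => h (π y))
  obtain ⟨ψ', hψ'⟩ := exists_endo π P₁ hP₁ φ⁻¹.toMonoidHom (fun y => by
    have h1 := (P₁.map π).inv_mem (h (φ⁻¹ (π y)))
    rw [mul_inv_rev, inv_inv, MulAut.apply_inv_self] at h1
    exact h1)
  have hπψ : ∀ y, π (ψ y) = φ (π y) := fun y => (hψ y).2
  have hπψ' : ∀ y, π (ψ' y) = φ⁻¹ (π y) := fun y => (hψ' y).2
  have h1 : ∀ y, ψ' (ψ y) = y := by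
    intro y
    have h2 : y⁻¹ * ψ' (ψ y) ∈ P₁ := by
      have := P₁.mul_mem (hψ y).1 (hψ' (ψ y)).1
      rwa [mul_assoc, mul_inv_cancel_left] at this
    have h3 := inj_of_inf_ker π P₁ hP₁ h2 P₁.one_mem (by
      rw [map_mul, hπψ', hπψ, MulAut.inv_apply_self, map_inv, inv_mul_cancel, map_one])
    exact (inv_mul_eq_one.mp h3).symm
  have h1' : ∀ y, ψ (ψ' y) = y := by
    intro y
    have h2 : y⁻¹ * ψ (ψ' y) ∈ P₁ := by
      have := P₁.mul_mem (hψ' y).1 (hψ (ψ' y)).1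
      rwa [mul_assoc, mul_inv_cancel_left] at this
    have h3 := inj_of_inf_ker π P₁ hP₁ h2 P₁.one_mem (by
      rw [map_mul, hπψ, hπψ', MulAut.apply_inv_self, map_inv, inv_mul_cancel, map_one])
    exact (inv_mul_eq_one.mp h3).symm
  refine ⟨{ toFun := ψ, invFun := ψ', left_inv := h1, right_inv := h1', map_mul' := map_mul ψ },
    hψ⟩

end lift

/-- `φ ∈ Aut(G)` lifts along `π : P → G`, compatibly with the kernel of `π` and with `r`. -/
def LiftsTo {G P R : Type*} [Group G] [Group P] [Group R] (π : P →* G) (r : P →* R)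
    (φ : MulAut G) : Prop :=
  ∃ ψ : MulAut P, (∀ y, π (ψ y) = φ (π y)) ∧ (∀ y, π y = 1 → ψ y = y) ∧ ∀ y, r (ψ y) = r y

/-- The intersection of the kernels of all homomorphisms from `G` to the symmetric group of
degree `B`. -/
def level (G : Type*) [Group G] (B : ℕ) : Subgroup G := ⨅ f : G →* Equiv.Perm (Fin B), f.ker

theorem level_characteristic (G : Type*) [Group G] (B : ℕ) : (level G B).Characteristic := by
  rw [Subgroup.characteristic_iff_le_comap]
  intro φ x hx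
  rw [Subgroup.mem_comap]
  unfold level at hx ⊢
  rw [Subgroup.mem_iInf]
  intro f
  rw [Subgroup.mem_iInf] at hx
  have := hx (f.comp φ.toMonoidHom)
  rw [MonoidHom.mem_ker] at this ⊢
  exact this

theorem level_finiteIndex (G : Type*) [Group G] [Group.FG G] (B : ℕ) :
    (level G B).FiniteIndex := by
  obtain ⟨S, hS⟩ := Group.fg_def.mp (inferInstance : Group.FG G)
  have hfin : Finite (G →* Equiv.Perm (Fin B)) := by
    let r : (G →* Equiv.Perm (Fin B)) → (S → Equiv.Perm (Fin B)) := fun f s => f s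
    apply Finite.of_injective r
    intro f g hfg
    refine MonoidHom.eq_of_eqOn_dense hS (fun x hx => ?_)
    exact congrFun hfg ⟨x, hx⟩
  apply Subgroup.finiteIndex_iInf
  intro f
  exact Subgroup.finiteIndex_ker f

theorem level_le {G : Type*} [Group G] {B : ℕ} (N : Subgroup G) [N.Normal] [N.FiniteIndex]
    (h : N.index ≤ B) : level G B ≤ N := by
  have hfin : Finite (G ⧸ N) := Subgroup.finite_quotient_of_finiteIndex
  have hcard : Nat.card (G ⧸ N) = N.index := rfl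
  let e : G ⧸ N ≃ Fin N.index := Finite.equivFinOfCardEq hcard
  let ι : G ⧸ N ↪ Fin B := e.toEmbedding.trans (Fin.castLEEmb h)
  intro x hx
  unfold level at hx
  rw [Subgroup.mem_iInf] at hx
  have h1 := hx ((Equiv.Perm.viaEmbeddingHom ι).comp (MulAction.toPermHom G (G ⧸ N)))
  rw [MonoidHom.mem_ker, MonoidHom.comp_apply] at h1
  have h2 : MulAction.toPermHom G (G ⧸ N) x = 1 :=
    Equiv.Perm.viaEmbeddingHom_injective ι (by rw [h1, map_one])
  have h3 : (MulAction.toPermHom G (G ⧸ N) x) ((1 : G) : G ⧸ N) = ((1 : G) : G ⧸ N) := by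
    rw [h2]; rfl
  rw [MulAction.toPermHom_apply, MulAction.toPerm_apply] at h3
  change ((x * 1 : G) : G ⧸ N) = ((1 : G) : G ⧸ N) at h3
  rw [mul_one] at h3
  exact (QuotientGroup.eq_one_iff x).mp h3

/-- The bound for the level. -/
def bdLevel (n e c : ℕ) : ℕ := ((bdGen n c * e.factorial) * c).factorial

theorem lifts_of_level {k : ℕ} {G : Type*} [Group G] {a b : Fin (k + 1) → G} (h : IsSurf a b)
    {n e c : ℕ} {P : Type*} [Group P] (π : P →* G) (hπ : π.range.index ≠ 0)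
    (hπc : π.range.index ≤ c) [Finite π.ker] (hn : Nat.card π.ker ≤ n)
    (r : P →* Equiv.Perm (Fin e)) (φ : MulAut G) (hφ : ∀ x, φ x * x⁻¹ ∈ level G (bdLevel n e c)) :
    LiftsTo π r φ := by
  obtain ⟨P₁, hP₁n, hP₁f, hP₁i, hP₁⟩ := general_case h π hπ
  let P₂ : Subgroup P := P₁ ⊓ r.ker
  have hP₂n : P₂.Normal := inferInstance
  have hrf : r.ker.FiniteIndex := Subgroup.finiteIndex_ker r
  have hri : r.ker.index ≤ e.factorial := by
    rw [Subgroup.index_ker]
    have h1 : Nat.card r.range ≤ Nat.card (Equiv.Perm (Fin e)) :=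
      Nat.card_le_card_of_injective _ Subtype.val_injective
    rwa [Nat.card_perm, Nat.card_fin] at h1
  have hP₂f : P₂.FiniteIndex := inferInstance
  have hP₂i : P₂.index ≤ bdGen n c * e.factorial := by
    refine le_trans Subgroup.index_inf_le (Nat.mul_le_mul ?_ hri)
    exact le_trans hP₁i (bdGen_mono Nat.card_pos hn hπc)
  have hP₂ : P₂ ⊓ π.ker = ⊥ := by
    rw [eq_bot_iff, ← hP₁]
    exact inf_le_inf_right _ inf_le_left
  have hNf : (P₂.map π).FiniteIndex := finiteIndex_map π P₂ hπ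
  have hNi : (P₂.map π).index ≤ (bdGen n c * e.factorial) * c :=
    le_trans (index_map_le π P₂) (Nat.mul_le_mul hP₂i hπc)
  have hcore : (P₂.map π).normalCore.index ≤ bdLevel n e c :=
    le_trans (index_normalCore_le _) (Nat.factorial_le hNi)
  have hle : level G (bdLevel n e c) ≤ P₂.map π :=
    le_trans (level_le _ hcore) (Subgroup.normalCore_le _)
  have hchar := level_characteristic G (bdLevel n e c)
  have hnorm : (level G (bdLevel n e c)).Normal := inferInstance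
  obtain ⟨ψ, hψ⟩ := exists_auto π P₂ hP₂ φ (fun x => by
    apply hle
    have h1 := hnorm.conj_mem _ (hφ x) x⁻¹
    rw [inv_inv] at h1
    have h2 : x⁻¹ * (φ x * x⁻¹) * x = x⁻¹ * φ x := by group
    rwa [h2] at h1)
  refine ⟨ψ, fun y => (hψ y).2, fun y hy => ?_, fun y => ?_⟩
  · have h1 := inj_of_inf_ker π P₂ hP₂ (hψ y).1 P₂.one_mem (by
      rw [map_mul, (hψ y).2, hy, map_one φ, map_inv, hy, inv_one, mul_one, map_one π])
    exact (inv_mul_eq_one.mp h1).symm
  · have h1 : y⁻¹ * ψ y ∈ r.ker := (hψ y).1.2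
    rw [MonoidHom.mem_ker, map_mul, map_inv, inv_mul_eq_one] at h1
    exact h1.symm

end Pool.MP_59b15d_al.H24T
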